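import Mathlib
import Pool.Agent.W931.LC.Props

set_option autoImplicit false

/-!
# Assembly of regularity, cardinals stay cardinals
-/

namespace Pool.Agent.W53.LC

open Cardinal Pool.Agent.Helper669.Forcing Pool.Agent.Helper669.K Pool.Agent.Helper669.U
  Pool.Agent.Helper669.V Pool.Agent.W931.KH Pool.Agent.W931.LC

/-- The index set has a smallest element with `ν ≤ ka j`, if `ν` is not above all of them. -/
theorem exists_min (Q : Par) (ν : Cardinal.{0}) (h : ∃ j, ν ≤ Q.ka j) :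
    ∃ j, ν ≤ Q.ka j ∧ ∀ i < j, Q.ka i < ν := by
  have hne : {j : I | ν ≤ Q.ka j}.Nonempty := h
  have hwf : WellFounded (fun a b : I => a < b) := wellFounded_lt
  refine ⟨hwf.min _ hne, hwf.min_mem _ hne, fun i hi => ?_⟩
  by_contra hcon
  exact hwf.not_lt_min {j : I | ν ≤ Q.ka j} (x := i) (not_lt.1 hcon) hi

theorem card_Iio_lt (j : I) : #(Set.Iio j) < ℵ₁ := by simpa using Cardinal.mk_Iio_lt j

theorem tREG (h1 : S_REG1) (h2 : S_REG2) (h3 : S_REG3) (h4 : S_REG4) (h5 : S_REG5)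
    (h6 : S_REG6) : S_REG := by
  intro hG Q ρ hρ hj p
  rcases lt_trichotomy (Order.succ Q.top) ρ with h | h | h
  · exact h5 hG Q ρ hρ h p
  · rw [← h]
    exact h4 hG Q p
  · have hle : ρ ≤ Q.top := Order.lt_succ_iff.1 h
    have hex : ∃ j, ρ ≤ Q.ka j := by
      by_contra hcon
      push Not at hcon
      have j0 : I := Classical.choice (by
        rw [← Cardinal.mk_ne_zero_iff, mk_ord_toType]
        exact (aleph0_pos.trans_le (aleph0_le_aleph 1)).ne')
      have hI : #I < ρ := by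
        rw [mk_ord_toType]
        exact (Q.aleph1_lt_ka j0).trans (hcon j0)
      have hlt : Q.top < ρ := Cardinal.iSup_lt_of_isRegular hρ hI hcon
      exact absurd hle (not_le.2 hlt)
    obtain ⟨j, hjj, hmin⟩ := exists_min Q ρ hex
    rcases eq_or_lt_of_le hjj with he | hlt
    · rw [he]
      exact h1 Q j p
    · have hmu : ρ ≤ Q.mu j := by
        rcases hj j with h' | h'
        · exact h'
        · exact absurd h' (not_le.2 hlt)
      rcases lt_trichotomy (Order.succ (Q.lam j)) ρ with h' | h' | h'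
      · exact h2 hG Q j ρ hρ h' hmu p
      · rw [← h']
        exact h3 hG Q j p
      · have hlam : ρ ≤ Q.lam j := Order.lt_succ_iff.1 h'
        rcases le_or_gt ρ ℵ₁ with ha | ha
        · exact h6 Q ρ hρ (fun i => ha.trans ((Q.lam_ge i).trans (Q.lam_lt_mu i).le)) p
        · exfalso
          have hs : (⨆ i : Set.Iio j, Q.ka i) < ρ :=
            Cardinal.iSup_lt_of_isRegular hρ ((card_Iio_lt j).trans ha) (fun i => hmin i i.2)
          exact absurd hlam (not_le.2 (max_lt ha hs))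

/-- If `ρ ≤ ν` stays regular then there is no function from `μ < ρ` onto `ν`. -/
theorem notOnto {P : Type} [Preorder P] {μ ν ρ : Cardinal.{0}} (hμ : μ < ρ) (hρ : ρ ≤ ν)
    (hreg : ∀ p : P, p ∈ StaysRegular P ρ) (p : P) :
    p ∈ fnot (fex fun R : μ.out → ν.out → Set P => fand (IsFun R) (IsOnto R)) := by
  intro q _ hq
  obtain ⟨r, _, R, hR⟩ := mem_fex.1 hq q le_rfl
  have hf : r ∈ IsFun R := hR.1
  have ho : r ∈ IsOnto R := hR.2
  have hne : Nonempty ρ.ord.ToType := by
    rw [← Cardinal.mk_ne_zero_iff, mk_ord_toType]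
    exact (lt_of_le_of_lt (zero_le) hμ).ne'
  obtain ⟨g, hg⟩ : ∃ g : ν.out → ρ.ord.ToType, Function.Surjective g := by
    have h1 : #(ρ.ord.ToType) ≤ #(ν.out) := by
      rw [mk_ord_toType, mk_out]
      exact hρ
    obtain ⟨e⟩ := h1
    exact ⟨Function.invFun e, Function.invFun_surjective e.injective⟩
  let R' : μ.out → ρ.ord.ToType → Set P := fun x y => {s | ∃ z, g z = y ∧ s ∈ meets (R x z)}
  have hR'down : ∀ x y, Down (R' x y) := by
    rintro x y s ⟨z, hz, hs⟩ t ht
    exact ⟨z, hz, down_meets _ _ hs _ ht⟩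
  have hfun : r ∈ IsFun R' := by
    refine ⟨fun x => ?_, fun x y y' => ?_⟩
    · refine mem_fex.2 fun q' hq' => ?_
      obtain ⟨s, hs, z, hz⟩ := mem_fex.1 (hf.1 x) q' hq'
      exact ⟨s, hs, g z, meets_of_mem ⟨z, rfl, hz⟩⟩
    · refine mem_fimp.2 fun q' hq' h' => ?_
      obtain ⟨s, hs, z, hz, hsz⟩ := exists_of_meets (hR'down x y) h'.1
      obtain ⟨t, ht, z', hz', htz⟩ := exists_of_meets (hR'down x y')
        (down_meets _ _ h'.2 _ hs)
      refine ⟨t, ht.trans hs, ?_⟩
      have hft : t ∈ IsFun R := down_IsFun R _ hf _ (ht.trans (hs.trans hq'))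
      have : z = z' := IsFun.unique hft (down_meets _ _ hsz _ ht) htz
      show y = y'
      rw [← hz, ← hz', this]
  have hreg' : r ∈ fimp (IsFun R') (fex fun b : ρ.ord.ToType => fall fun x => fall fun y =>
      fimp (meets (R' x y)) (fground (y < b))) := hreg r μ hμ R'
  obtain ⟨r1, hr1, hb⟩ := mem_fimp.1 hreg' r le_rfl hfun
  obtain ⟨r2, hr2, b, hb2⟩ := mem_fex.1 hb r1 le_rfl
  obtain ⟨z, hz⟩ := hg b
  obtain ⟨r3, hr3, x, hx⟩ := mem_fex.1 (ho z) r2 (hr2.trans hr1)
  obtain ⟨r4, _, hlt⟩ := mem_fimp.1 (hb2 x b) r3 hr3 (meets_of_mem ⟨z, hz, hx⟩)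
  exact lt_irrefl b (mem_fground.1 hlt)

theorem tSTAY (h : S_REG) : S_STAY := by
  intro hG Q ν hν p μ hμ
  obtain ⟨hν0, hνtop, hνj⟩ := hν
  by_cases hr : ν.IsRegular
  · exact notOnto hμ le_rfl (fun q => h hG Q ν hr hνj q) p
  · obtain ⟨j1, hj1⟩ := Q.exists_lt_ka hνtop
    obtain ⟨j, hjj, hmin⟩ := exists_min Q ν ⟨j1, hj1.le⟩
    have hne : ν ≠ Q.ka j := by
      rintro rfl
      exact hr (Q.reg j)
    have hlt : ν < Q.ka j := lt_of_le_of_ne hjj hne
    have hmu : ν ≤ Q.mu j := by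
      rcases hνj j with h' | h'
      · exact h'
      · exact absurd h' (not_le.2 hlt)
    have hstep : ∀ κ : Cardinal.{0}, ℵ₀ ≤ κ → ν ≤ Order.succ κ → ν ≤ κ := by
      intro κ hκ hle
      rcases eq_or_lt_of_le hle with he | hl
      · exact absurd (he ▸ Cardinal.isRegular_succ hκ) hr
      · exact Order.lt_succ_iff.1 hl
    have h0 := Q.aleph0_le_lam j
    have h1 : ℵ₀ ≤ Order.succ (Q.lam j) := h0.trans (Order.le_succ _)
    have h2 : ℵ₀ ≤ Order.succ (Order.succ (Q.lam j)) := h1.trans (Order.le_succ _)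
    have hlam : ν ≤ Q.lam j := hstep _ h0 (hstep _ h1 (hstep _ h2 hmu))
    have ha : ℵ₁ < ν := by
      by_contra hcon
      have h3 : ν ≤ ℵ₀ := by
        refine hstep _ le_rfl ?_
        rw [succ_aleph0]
        exact not_lt.1 hcon
      have h4 : ν = ℵ₀ := le_antisymm h3 hν0
      exact hr (h4 ▸ Cardinal.isRegular_aleph0)
    have hsup : ν ≤ ⨆ i : Set.Iio j, Q.ka i := by
      rcases le_max_iff.1 hlam with h' | h'
      · exact absurd h' (not_le.2 ha)
      · exact h'
    obtain ⟨i, hi⟩ : ∃ i : Set.Iio j, μ < Q.ka i := by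
      by_contra hcon
      push Not at hcon
      have : (⨆ i : Set.Iio j, Q.ka i) ≤ μ := ciSup_le' hcon
      exact absurd (hsup.trans this) (not_le.2 hμ)
    have hreg : ∀ q : Q.Cd, q ∈ StaysRegular Q.Cd (Q.ka i) := by
      refine h hG Q (Q.ka i) (Q.reg i) ?_
      intro j'
      rcases lt_or_ge (i : I) j' with h' | h'
      · exact Or.inl (Q.ka_lt_mu h').le
      · exact Or.inr (Q.mono.monotone h')
    exact notOnto hi (hmin i i.2).le hreg p

end Pool.Agent.W53.LC
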